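import Mathlib
import Pool.Agent.MP_2634a8_co.Y.Final

namespace Pool.Agent.Results.MP_2634a8_co.AllButFinite

open Pool.Agent.MP_2634a8_co

theorem result : ∃ n₀ : ℕ, ∀ (k : ℕ) (V : Type) [Finite V] (G : Digraph V),
    n₀ ≤ Nat.card V → IsRegularDigraph G k → HasArcDisjointCycles G ((k + 1).choose 2) :=
  X.all_but_finite

end Pool.Agent.Results.MP_2634a8_co.AllButFinite
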