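import Mathlib
import Pool.Agent.MP_2634a8_co.Mg.H32_LP

namespace Pool.Agent.Results.MP_2634a8_co.Fractional

open Pool.Agent.MP_2634a8_co

theorem result (V : Type) [Finite V] [Nonempty V] (G : Digraph V) (k : ℕ)
    (hG : IsRegularDigraph G k) :
    ∃ (t : ℕ) (c : Fin t → DiCycle G) (y : Fin t → ℝ), (∀ i, 0 ≤ y i) ∧
      (∀ (e : V × V) (s : Finset (Fin t)), (∀ i ∈ s, e ∈ (c i).arcs) → ∑ i ∈ s, y i ≤ 1) ∧
      ((k + 1).choose 2 : ℝ) ≤ ∑ i, y i :=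
  H32.fractional G k hG

end Pool.Agent.Results.MP_2634a8_co.Fractional
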