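import Mathlib
import Pool.Agent.MP_2634a8_co.Mg.H32_Greedy

namespace Pool.Agent.Results.MP_2634a8_co.LargeOrder

open Pool.Agent.MP_2634a8_co

theorem result (V : Type) [Finite V] (G : Digraph V) (k : ℕ) (hG : IsRegularDigraph G k)
    (hn : 200 * k ^ 5 ≤ Nat.card V) : HasArcDisjointCycles G ((k + 1).choose 2) :=
  H32.large_order G k hG hn

end Pool.Agent.Results.MP_2634a8_co.LargeOrder
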