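import Mathlib
import Pool.Agent.MP_2634a8_co.Mg.Exact

namespace Pool.Agent.Results.MP_2634a8_co.SmallDegree

open Pool.Agent.MP_2634a8_co

theorem result (V : Type) [Finite V] [Nonempty V] (G : Digraph V) (k : ℕ) (hk : k ≤ 5)
    (hG : IsRegularDigraph G k) : HasArcDisjointCycles G ((k + 1).choose 2) := by
  classical
  exact exact_of_QB G k (fun j hj B v hv => B.no_blk (hj.trans hk) hv) hG

end Pool.Agent.Results.MP_2634a8_co.SmallDegree
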